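import Pool.Agent.U68.TU.Stm

set_option autoImplicit false
set_option linter.unusedSectionVars false

/-! # Project TU: FIN -/

namespace Pool.Agent.U68.TU

open NumberField Quaternion

variable {K : Type} [Field K] [NumberField K]

/-- quaternions by coordinates -/
def qd (a b c d : K) : ℍ[K] := ⟨a, b, c, d⟩

@[simp] lemma qd_re (a b c d : K) : (qd a b c d).re = a := rfl
@[simp] lemma qd_imI (a b c d : K) : (qd a b c d).imI = b := rfl
@[simp] lemma qd_imJ (a b c d : K) : (qd a b c d).imJ = c := rfl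
@[simp] lemma qd_imK (a b c d : K) : (qd a b c d).imK = d := rfl

/-- a real embedding -/
lemma exists_emb (B : BQ K) : ∃ φ : K →+* ℝ, φ (B.s : K) = Real.sqrt 2 := by
  obtain ⟨φ, h, _⟩ := B.emb (Real.sqrt 2) ((1 + Real.sqrt 5) / 2) (Real.sq_sqrt (by norm_num)) (by
    have : Real.sqrt 5 ^ 2 = 5 := Real.sq_sqrt (by norm_num)
    nlinarith)
  exact ⟨φ, h⟩

lemma normSq_expand (x : ℍ[K]) : normSq x = x.re ^ 2 + x.imI ^ 2 + x.imJ ^ 2 + x.imK ^ 2 := by
  rw [Quaternion.normSq_def']

lemma normSq_ne (B : BQ K) {x : ℍ[K]} (hx : x ≠ 0) : normSq x ≠ 0 := by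
  obtain ⟨φ, -⟩ := exists_emb B
  intro h
  rw [normSq_expand] at h
  have h1 := congrArg φ h
  simp only [map_add, map_pow, map_zero] at h1
  have a := sq_nonneg (φ x.re)
  have b := sq_nonneg (φ x.imI)
  have c := sq_nonneg (φ x.imJ)
  have d := sq_nonneg (φ x.imK)
  have z : ∀ t : K, φ t ^ 2 = 0 → t = 0 := fun t ht =>
    φ.injective (by rw [map_zero]; exact pow_eq_zero_iff (two_ne_zero) |>.1 ht)
  apply hx
  apply QuaternionAlgebra.ext
  · exact z _ (by linarith)
  · exact z _ (by linarith)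
  · exact z _ (by linarith)
  · exact z _ (by linarith)

lemma s_ne (B : BQ K) : (B.s : K) ≠ 0 := by
  intro h
  have h1 : (B.s : K) ^ 2 = 2 := by
    rw [← map_pow, B.hs]; exact map_ofNat _ 2
  rw [h] at h1
  norm_num at h1

lemma s_sq (B : BQ K) : (B.s : K) ^ 2 = 2 := by
  rw [← map_pow, B.hs]; exact map_ofNat _ 2

lemma two_div_s (B : BQ K) : 2 / (B.s : K) = (B.s : K) := by
  have := s_ne B
  field_simp
  exact (s_sq B).symm

/-- the lattice `OS m + OS Z` -/
def ILat (B : BQ K) (hO : S_ORD) (m : ℕ) (Z : ℍ[K]) : AddSubgroup ℍ[K] where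
  carrier := {x | ∃ o o', InOS B o ∧ InOS B o' ∧ x = o * (m : ℍ[K]) + o' * Z}
  add_mem' := by
    rintro _ _ ⟨a, b, ha, hb, rfl⟩ ⟨c, d, hc, hd, rfl⟩
    exact ⟨a + c, b + d, (hO K B).2.1 _ _ ha hc, (hO K B).2.1 _ _ hb hd, by noncomm_ring⟩
  zero_mem' := by
    have h0 : InOS B 0 := by
      have := (hO K B).2.2.2.1 0 1 (hO K B).2.2.2.2.2.1
      simpa using this
    exact ⟨0, 0, h0, h0, by simp⟩
  neg_mem' := by
    rintro _ ⟨a, b, ha, hb, rfl⟩
    have hn : ∀ y, InOS B y → InOS B (-y) := by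
      intro y hy
      have := (hO K B).2.2.2.1 (-1) y hy
      simpa using this
    exact ⟨-a, -b, hn _ ha, hn _ hb, by noncomm_ring⟩

lemma mem_ILat (B : BQ K) (hO : S_ORD) (m : ℕ) (Z x : ℍ[K]) : x ∈ ILat B hO m Z ↔
    ∃ o o', InOS B o ∧ InOS B o' ∧ x = o * (m : ℍ[K]) + o' * Z := Iff.rfl

/-- integral coordinates are in `OS` -/
lemma inOS_of_int (B : BQ K) (hO : S_ORD) (a b c d : 𝓞 K) :
    InOS B (qd (a : K) b c d) := by
  obtain ⟨hm, ha, -, ht, -, h1, hi, hj, -⟩ := hO K B
  change InOS B (qd 0 1 0 0) at hi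
  change InOS B (qd 0 0 1 0) at hj
  have hk := hm _ _ hi hj
  have := ha _ _ (ha _ _ (ht a _ h1) (ht b _ hi)) (ha _ _ (ht c _ hj) (ht d _ hk))
  have e : qd (a : K) b c d = ((a : K) • (1 : ℍ[K]) + (b : K) • qd 0 1 0 0) +
      ((c : K) • qd 0 0 1 0 + (d : K) • (qd 0 1 0 0 * qd 0 0 1 0)) := by
    apply QuaternionAlgebra.ext <;>
      simp [Quaternion.re_mul, Quaternion.imI_mul, Quaternion.imJ_mul, Quaternion.imK_mul] <;>
      rw [Algebra.smul_def, mul_one]
  rw [e]
  exact this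

/-- common denominators -/
lemma exists_den (x : K) : ∃ m : ℕ, 0 < m ∧ ∃ t : 𝓞 K, (m : K) * x = t := by
  obtain ⟨y, hy0, hy⟩ := IsAlgebraic.exists_integral_multiple (R := ℤ) (z := x)
    ((IsFractionRing.isAlgebraic_iff ℤ ℚ K).2 (Algebra.IsAlgebraic.isAlgebraic x))
  have hy2 : IsIntegral ℤ ((y.natAbs : K) * x) := by
    rcases Int.natAbs_eq y with h | h
    · have e : (y.natAbs : K) * x = y • x := by
        conv_rhs => rw [h]
        simp
      rw [e]; exact hy
    · have e : (y.natAbs : K) * x = -(y • x) := by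
        conv_rhs => rw [h]
        simp
      rw [e]; exact hy.neg
  exact ⟨y.natAbs, Int.natAbs_pos.2 hy0, ⟨_, hy2⟩, rfl⟩

theorem t_FIN (hO : S_ORD) (hN : S_NORM) (hR : S_RAT) (hC : S_CONJ) : S_FIN := by
  intro K _ _ B
  refine ⟨?_, ?_⟩
  · intro φ x y z h
    have hs : φ (B.s : K) ^ 2 = 2 := by rw [← map_pow, s_sq, map_ofNat]
    set σ := φ (B.s : K) with hσ
    have key : 3 * x ^ 2 + y ^ 2 + z ^ 2 + y * z + 2 * σ * x * y + 2 * σ * x * z =
        3 * (x + σ * (y + z) / 3) ^ 2 + (y + z) ^ 2 / 12 + (y - z) ^ 2 / 4 := by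
      have : σ ^ 2 * (y + z) ^ 2 = 2 * (y + z) ^ 2 := by rw [hs]
      nlinarith
    rw [key]
    by_contra hneg
    have a1 := sq_nonneg (x + σ * (y + z) / 3)
    have a2 := sq_nonneg (y + z)
    have a3 := sq_nonneg (y - z)
    have b1 : (x + σ * (y + z) / 3) ^ 2 = 0 := by nlinarith
    have b2 : (y + z) ^ 2 = 0 := by nlinarith
    have b3 : (y - z) ^ 2 = 0 := by nlinarith
    have c2 : y + z = 0 := by simpa using b2
    have c3 : y - z = 0 := by simpa using b3
    have c1 : x + σ * (y + z) / 3 = 0 := by simpa using b1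
    rw [c2] at c1
    rcases h with h | h | h
    · apply h; linarith
    · apply h; linarith
    · apply h; linarith
  · intro α hα
    obtain ⟨x0, y0, z0, hxyz⟩ := hR K B α hα
    obtain ⟨hm, ha, hst, ht, hint, h1, hi, hj, -⟩ := hO K B
    obtain ⟨X, hX⟩ : ∃ X : ℍ[K], X = qd 0 x0 y0 z0 := ⟨_, rfl⟩
    have hXX : X * X = -((α : K) : ℍ[K]) := by
      apply QuaternionAlgebra.ext
      · rw [Quaternion.re_mul, Quaternion.re_neg, Quaternion.re_coe, ← hxyz]; simp only [hX, qd_re, qd_imI, qd_imJ, qd_imK]; ring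
      · rw [Quaternion.imI_mul, Quaternion.imI_neg, Quaternion.imI_coe]; simp only [hX, qd_re, qd_imI, qd_imJ, qd_imK]; ring
      · rw [Quaternion.imJ_mul, Quaternion.imJ_neg, Quaternion.imJ_coe]; simp only [hX, qd_re, qd_imI, qd_imJ, qd_imK]; ring
      · rw [Quaternion.imK_mul, Quaternion.imK_neg, Quaternion.imK_coe]; simp only [hX, qd_re, qd_imI, qd_imJ, qd_imK]; ring
    obtain ⟨m1, hm1, t1, ht1⟩ := exists_den x0
    obtain ⟨m2, hm2, t2, ht2⟩ := exists_den y0
    obtain ⟨m3, hm3, t3, ht3⟩ := exists_den z0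
    set m := m1 * m2 * m3 with hmdef
    have hm0 : 0 < m := by positivity
    have hZ : InOS B ((m : ℍ[K]) * X) := by
      have := inOS_of_int B hO 0 (m2 * m3 * t1) (m1 * m3 * t2) (m1 * m2 * t3)
      have e : (m : ℍ[K]) * X = qd ((0 : 𝓞 K) : K) ((m2 * m3 * t1 : 𝓞 K) : K)
          ((m1 * m3 * t2 : 𝓞 K) : K) ((m1 * m2 * t3 : 𝓞 K) : K) := by
        apply QuaternionAlgebra.ext
        · simp [Quaternion.re_mul, hX]
        · simp [Quaternion.imI_mul, hX, hmdef, ← ht1]; ring
        · simp [Quaternion.imJ_mul, hX, hmdef, ← ht2]; ring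
        · simp [Quaternion.imK_mul, hX, hmdef, ← ht3]; ring
      rw [e]
      exact this
    have hcm : ∀ y : ℍ[K], y * (m : ℍ[K]) = (m : ℍ[K]) * y := fun y => (Nat.cast_commute m y).symm.eq
    have h0 : InOS B 0 := by
      have := ht 0 1 h1
      simpa using this
    have hnat : ∀ k : ℕ, InOS B (k : ℍ[K]) := by
      intro k
      have := ht k 1 h1
      convert this using 1
      rw [← Algebra.algebraMap_eq_smul_one]
      simp
    obtain ⟨n, hn⟩ := hN K B (ILat B hO m ((m : ℍ[K]) * X)) (by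
        rintro x ⟨o, o', ho, ho', rfl⟩
        exact ha _ _ (hm _ _ ho (hnat m)) (hm _ _ ho' hZ)) (by
        rintro o x ho ⟨p, p', hp, hp', rfl⟩
        exact ⟨o * p, o * p', hm _ _ ho hp, hm _ _ ho hp', by noncomm_ring⟩)
        ⟨m, hm0, 1, 0, h1, h0, by simp⟩
    obtain ⟨x, hxI, hx0', ⟨Y, hY, hxY⟩, -⟩ := hC K B _ n hn X α hXX (by
      rintro x ⟨o, o', ho, ho', rfl⟩
      refine ⟨-((α : K) • o'), o, ?_, ho, ?_⟩
      · have := ht (-α) o' ho'
        simpa using this
      · have e1 : o' * ((m : ℍ[K]) * X) * X = o' * (m : ℍ[K]) * (X * X) := by noncomm_ring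
        rw [add_mul, e1, hXX]
        have e2 : ((α : K) : ℍ[K]) = (α : K) • (1 : ℍ[K]) := by
          rw [← Algebra.algebraMap_eq_smul_one]; rfl
        rw [e2]
        simp only [mul_neg, smul_mul_assoc, mul_smul_comm, mul_one, neg_mul, mul_assoc]
        abel)
    have hnx := normSq_ne B hx0'
    -- `Y` squares to `-α`
    have hYY : Y * Y = -((α : K) : ℍ[K]) := by
      have e1 : (Y * Y) * x = -((α : K) : ℍ[K]) * x := by
        rw [mul_assoc, ← hxY, ← mul_assoc, ← hxY, mul_assoc, hXX]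
        have := (Quaternion.coe_commutes (α : K) x)
        rw [mul_neg, neg_mul, this]
      have e2 : (Y * Y) * (x * star x) = -((α : K) : ℍ[K]) * (x * star x) := by
        rw [← mul_assoc, e1, mul_assoc]
      rw [Quaternion.self_mul_star] at e2
      have e3 := congrArg (fun q => q * (((normSq x)⁻¹ : K) : ℍ[K])) e2
      simp only [mul_assoc, ← Quaternion.coe_mul, mul_inv_cancel₀ hnx] at e3
      simpa using e3
    have hYre : Y.re = 0 := by
      have e2 : Y * (x * star x) = x * X * star x := by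
        rw [← mul_assoc, hxY]
      rw [Quaternion.self_mul_star] at e2
      have e3 := congrArg QuaternionAlgebra.re e2
      have e4 : (x * X * star x).re = 0 := by
        simp only [Quaternion.re_mul, Quaternion.imI_mul, Quaternion.imJ_mul, Quaternion.imK_mul,
          Quaternion.re_star, Quaternion.imI_star, Quaternion.imJ_star, Quaternion.imK_star, hX, qd_re, qd_imI,
          qd_imJ, qd_imK]
        ring
      rw [e4] at e3
      simp at e3
      rcases e3 with e3 | e3
      · exact e3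
      · exact absurd e3 hnx
    obtain ⟨a, b, c, d, hY4⟩ := hY
    refine ⟨a, b, c, ?_⟩
    have hs := s_sq B
    have hs0 := s_ne B
    have r1 : (a : K) + b / (B.s : K) + c / (B.s : K) + d / 2 = 0 := by
      rw [hY4] at hYre; exact hYre
    have r2 : Y.imI ^ 2 + Y.imJ ^ 2 + Y.imK ^ 2 = (α : K) := by
      have := congrArg QuaternionAlgebra.re hYY
      simp [hYre] at this
      linear_combination (-1 : K) * this
    have hd : (d : K) / 2 = -(a : K) - b / (B.s : K) - c / (B.s : K) := by linear_combination r1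
    rw [hY4] at r2
    simp only at r2
    rw [hd] at r2
    have hinv : (1 : K) / (B.s : K) = (B.s : K) / 2 := by
      field_simp
      exact hs.symm
    have hb : (b : K) / (B.s : K) = b * ((B.s : K) / 2) := by rw [← hinv]; ring
    have hc : (c : K) / (B.s : K) = c * ((B.s : K) / 2) := by rw [← hinv]; ring
    rw [hb, hc] at r2
    have goal : ((3 * a ^ 2 + b ^ 2 + c ^ 2 + b * c + 2 * B.s * a * b + 2 * B.s * a * c : 𝓞 K) : K) =
        (α : K) := by
      rw [← r2]
      push_cast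
      have e2 : ((2 : 𝓞 K) : K) = 2 := map_ofNat _ 2
      have e3 : ((3 : 𝓞 K) : K) = 3 := map_ofNat _ 3
      simp only [map_ofNat]
      linear_combination (-(c : K) ^ 2 / 2 - (b : K) * c / 2 - (b : K) ^ 2 / 2) * hs
    exact_mod_cast goal

end Pool.Agent.U68.TU
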