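import Pool.Agent.U68.TU.Stm

set_option autoImplicit false

/-! # Project TU: from FIN and FIELD to the frozen statement -/

namespace Pool.Agent.U68.TU

open NumberField Quaternion

theorem main (hF : S_FIELD) (hFin : S_FIN) :
    ∃ (K : Type) (_ : Field K) (_ : NumberField K),
      Module.finrank ℚ K = 4 ∧ IsGalois ℚ K ∧ (∀ σ : K ≃ₐ[ℚ] K, σ * σ = 1) ∧
      NumberField.IsTotallyReal K ∧
      ∃ a : Fin 3 → Fin 3 → NumberField.RingOfIntegers K,
        (∀ φ : K →+* ℝ, ∀ x : Fin 3 → ℝ, x ≠ 0 →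
          0 < ∑ i : Fin 3, ∑ j : Fin 3,
            (if i ≤ j then φ ((a i j : NumberField.RingOfIntegers K) : K) * x i * x j else 0)) ∧
        ∀ α : NumberField.RingOfIntegers K,
          (∀ φ : K →+* ℝ, 0 < φ ((α : NumberField.RingOfIntegers K) : K)) →
          ∃ v : Fin 3 → NumberField.RingOfIntegers K,
            (∑ i : Fin 3, ∑ j : Fin 3, (if i ≤ j then a i j * v i * v j else 0)) = α := by
  obtain ⟨K, iK, iN, h1, h2, h3, h4, ⟨B⟩⟩ := hF
  refine ⟨K, iK, iN, h1, h2, h3, h4, ?_⟩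
  obtain ⟨hp, hu⟩ := hFin K B
  refine ⟨![![3, 2 * B.s, 2 * B.s], ![0, 1, 1], ![0, 0, 1]], ?_, ?_⟩
  · intro φ x hx
    have hx' : x 0 ≠ 0 ∨ x 1 ≠ 0 ∨ x 2 ≠ 0 := by
      by_contra h
      push Not at h
      apply hx
      funext i
      fin_cases i
      · exact h.1
      · exact h.2.1
      · exact h.2.2
    have := hp φ (x 0) (x 1) (x 2) hx'
    simp only [Fin.sum_univ_three]
    have e3 : φ ((3 : 𝓞 K) : K) = 3 := by
      rw [show ((3 : 𝓞 K) : K) = 3 from map_ofNat (algebraMap (𝓞 K) K) 3, map_ofNat]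
    have e2 : φ ((2 : 𝓞 K) : K) = 2 := by
      rw [show ((2 : 𝓞 K) : K) = 2 from map_ofNat (algebraMap (𝓞 K) K) 2, map_ofNat]
    have e2' : φ ((2 * B.s : 𝓞 K) : K) = 2 * φ (B.s : K) := by
      rw [show ((2 * B.s : 𝓞 K) : K) = ((2 : 𝓞 K) : K) * (B.s : K) from map_mul _ _ _, map_mul, e2]
    have e1 : φ ((1 : 𝓞 K) : K) = 1 := by
      rw [show ((1 : 𝓞 K) : K) = 1 from map_one (algebraMap (𝓞 K) K), map_one]
    simp only [Matrix.cons_val_zero, Matrix.cons_val_one, Matrix.cons_val, Fin.reduceLE, le_refl,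
      if_true, if_false, e3, e2', e1]
    linarith
  · intro α hα
    obtain ⟨x, y, z, h⟩ := hu α hα
    refine ⟨![x, y, z], ?_⟩
    simp only [Fin.sum_univ_three]
    simp
    rw [← h]
    ring

end Pool.Agent.U68.TU
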